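import Pool.Agent.Q267.E8.Stm2

set_option autoImplicit false

/-!
# Project E8, job LD: Landen's identity
-/

namespace Pool.Agent.Q164.E8.LD

open Finset Pool.Agent.Q267.CDE Pool.Agent.Q267.MW Pool.Agent.Q267.E8

variable {S : Type} [CommRing S]

theorem coeffL (m : ℕ) (x : S) :
    ((1 + Polynomial.C x * Polynomial.X) ^ m * (Polynomial.X + Polynomial.C x) ^ m).coeff m = Kf m (x ^ 2) := by
  have h1 : ((1 : Polynomial S) + Polynomial.C x * Polynomial.X) ^ m =
      ((1 + Polynomial.X) ^ m : Polynomial S).comp (Polynomial.C x * Polynomial.X) := by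
    simp
  rw [h1, Polynomial.coeff_mul]
  refine (Finset.Nat.sum_antidiagonal_eq_sum_range_succ (M := S)
    (fun i j : ℕ => (((1 + Polynomial.X) ^ m : Polynomial S).comp (Polynomial.C x * Polynomial.X)).coeff i *
      ((Polynomial.X + Polynomial.C x : Polynomial S) ^ m).coeff j) m).trans ?_
  unfold Kf
  refine Finset.sum_congr rfl fun k hk => ?_
  have hk1 : k ≤ m := Nat.lt_succ_iff.1 (Finset.mem_range.1 hk)
  rw [Polynomial.comp_C_mul_X_coeff, Polynomial.coeff_one_add_X_pow, Polynomial.coeff_X_add_C_pow,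
    Nat.choose_symm hk1, Nat.sub_sub_self hk1, ← pow_mul, mul_comm 2 k, pow_mul]
  ring

theorem coeffR (m : ℕ) (x b : S) :
    ((Polynomial.C x * (Polynomial.X + Polynomial.C (-1)) ^ 2 + Polynomial.C b * Polynomial.X) ^ m).coeff m =
      ∑ k ∈ range (m + 1), ((m.choose k : ℕ) : S) * ((k.centralBinom : ℕ) : S) * (-x) ^ k * b ^ (m - k) := by
  rw [add_pow, Polynomial.finsetSum_coeff]
  refine Finset.sum_congr rfl fun k hk => ?_
  have hk1 : k ≤ m := Nat.lt_succ_iff.1 (Finset.mem_range.1 hk)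
  have h1 : (Polynomial.C x * (Polynomial.X + Polynomial.C (-1)) ^ 2) ^ k * (Polynomial.C b * Polynomial.X) ^ (m - k) *
      ((m.choose k : ℕ) : Polynomial S) =
      Polynomial.C (x ^ k * b ^ (m - k) * ((m.choose k : ℕ) : S)) *
        ((Polynomial.X + Polynomial.C (-1)) ^ (2 * k) * Polynomial.X ^ (m - k)) := by
    rw [Polynomial.C_mul, Polynomial.C_mul, Polynomial.C_pow, Polynomial.C_pow, pow_mul, mul_pow, mul_pow,
      map_natCast]
    ring
  rw [h1, Polynomial.coeff_C_mul]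
  have h2 : ((Polynomial.X + Polynomial.C (-1 : S)) ^ (2 * k) * Polynomial.X ^ (m - k)).coeff m =
      ((Polynomial.X + Polynomial.C (-1 : S)) ^ (2 * k)).coeff k := by
    have h3 := Polynomial.coeff_mul_X_pow ((Polynomial.X + Polynomial.C (-1 : S)) ^ (2 * k)) (m - k) k
    rw [Nat.add_sub_cancel' hk1] at h3
    exact h3
  rw [h2, Polynomial.coeff_X_add_C_pow, Nat.centralBinom, show 2 * k - k = k by omega, neg_pow x k]
  ring

end Pool.Agent.Q164.E8.LD

namespace Pool.Agent.Q164.E8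

open Finset Pool.Agent.Q267.CDE Pool.Agent.Q267.MW Pool.Agent.Q267.E8

/-- **LD.** -/
theorem ld : S_LD := by
  intro S _ m x y hy
  have h1 := LD.coeffL m x
  have h2 := LD.coeffR m x ((1 + x) ^ 2)
  have h3 : ((1 : Polynomial S) + Polynomial.C x * Polynomial.X) ^ m * (Polynomial.X + Polynomial.C x) ^ m =
      (Polynomial.C x * (Polynomial.X + Polynomial.C (-1)) ^ 2 + Polynomial.C ((1 + x) ^ 2) * Polynomial.X) ^ m := by
    rw [← mul_pow]
    congr 1
    simp only [map_neg, map_one, map_pow, map_add]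
    ring
  rw [← h1, h3, h2]
  unfold Ef
  rw [Finset.mul_sum]
  refine Finset.sum_congr rfl fun k hk => ?_
  have hk1 : k ≤ m := Nat.lt_succ_iff.1 (Finset.mem_range.1 hk)
  obtain ⟨l, rfl⟩ := Nat.exists_eq_add_of_le hk1
  rw [Nat.add_sub_cancel_left]
  have h4 : (1 + x) ^ (2 * (k + l)) * y ^ k = ((1 + x) ^ 2) ^ l := by
    rw [pow_mul, pow_add, mul_right_comm, ← mul_pow, hy, one_pow, one_mul]
  have h5 : (-(x * y)) ^ k = (-x) ^ k * y ^ k := by
    rw [← mul_pow, neg_mul]
  rw [h5, ← h4]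
  ring

end Pool.Agent.Q164.E8
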