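import Pool.Agent.Q267.E8.Stm2
import Pool.Agent.Q156.E8.REC

set_option autoImplicit false

/-!
# Project E8, job RT: the recursion of the alternating sum of squares
-/

namespace Pool.Agent.Q164.E8.RT

open Finset Pool.Agent.Q267.CDE Pool.Agent.Q267.MW Pool.Agent.Q267.E8
open Pool.Agent.Q156.E8.REC

variable (p : ℕ) [hp : Fact p.Prime]

/-- the rational function of the certificate -/
def g (x n : R p) : R p := -2 * n ^ 2 + (6 * (x + 2) - 2) * n - 5 * (x + 2) ^ 2 + 3 * (x + 2)

/-- the telescoping identity -/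
theorem tele (x : R p) (K : ℕ) (hK : K + 1 ≤ p) :
    (x + 1) * ∑ k ∈ range (K + 1), ((x + 2) * ((-1) ^ k * bR p (x + 2) k ^ 2) +
      4 * (x + 1) * ((-1) ^ k * bR p x k ^ 2)) =
    (-1) ^ (K + 1) * g p x (K + 1) * bR p (x + 1) K ^ 2 := by
  induction K with
  | zero =>
    rw [zero_add, sum_range_one, bR_zero, bR_zero, bR_zero]
    unfold g
    push_cast
    ring
  | succ K ih =>
    rw [sum_range_succ, mul_add, ih (by omega)]
    have e1 := bR_succ p (x + 1) K (by omega)
    have e4 := bR_pascal p (x + 1) K (by omega)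
    have e5 := bR_shift p x (K + 1)
    rw [show x + 1 + 1 = x + 2 by ring] at e4
    rw [e4]
    push_cast at e5 ⊢
    unfold g
    set A := bR p (x + 1) (K + 1)
    set B := bR p (x + 1) K
    set c := bR p x (K + 1)
    have e6 : (-1 : R p) ^ (K + 1 + 1) = (-1) ^ (K + 1) * (-1) := pow_succ _ _
    rw [e6]
    set s := (-1 : R p) ^ (K + 1)
    linear_combination (4 * s * ((x + 1) * c + (x + 1 - (K + 1)) * A)) * e5 +
      s * (-2 * (x - K) * A + 2 * (2 * x + 2 - K) * B) * e1

end Pool.Agent.Q164.E8.RT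

namespace Pool.Agent.Q164.E8

open Finset Pool.Agent.Q267.CDE Pool.Agent.Q267.MW Pool.Agent.Q267.E8

/-- **RT.** -/
theorem rt : S_RT := by
  intro p hp x hp2 hx1 hx
  have hp1 := hp.out.two_le
  have h3 := RT.tele p x (p - 1) (by omega)
  rw [show p - 1 + 1 = p by omega] at h3
  have h5 : red p (bR p (x + 1) (p - 1)) = red p 0 := by
    unfold bR
    rw [map_mul, map_prod, map_zero]
    have h6 : (red p x + 1).val < p := ZMod.val_lt _
    have h7 : ((red p x + 1).val : ZMod p) = red p x + 1 := ZMod.natCast_zmod_val _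
    have h8 : (red p x + 1).val ≠ p - 1 := by
      intro h9
      apply hx
      rw [h9] at h7
      have h10 := congrArg (Nat.cast : ℕ → ZMod p) (show p - 1 + 1 = p by omega)
      rw [ZMod.natCast_self] at h10
      push_cast at h10
      linear_combination h10 - h7
    rw [prod_eq_zero (i := (red p x + 1).val) (mem_range.2 (by omega)), zero_mul]
    rw [map_sub, map_add, map_one, red_nat, h7, sub_self]
  obtain ⟨z, hz⟩ := red_eq_of p _ _ h5
  rw [zero_add] at hz
  have h6 : bR p (x + 1) (p - 1) ^ 2 = 0 := by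
    rw [hz]
    linear_combination z ^ 2 * p_sq p
  rw [h6, mul_zero] at h3
  have hu : IsUnit (x + 1) := isUnit_of_red p (by
    rw [map_add, map_one]
    intro h
    exact hx1 (eq_neg_of_add_eq_zero_left h))
  have h7 := hu.mul_left_cancel (h3.trans (mul_zero (x + 1)).symm)
  rw [sum_add_distrib, ← mul_sum, ← mul_sum] at h7
  unfold T2
  linear_combination h7

end Pool.Agent.Q164.E8
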